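import Pool.Agent.H88.CM.Targets

/-!
# Board clm_modules, row NLNS: the nonlinearity of the compositions near the orbit
-/

set_option autoImplicit false

open Set Function Topology Metric Filter
open scoped Manifold
open Pool.Agent.H88.CL Pool.Agent.H88.CM

namespace Pool.Agent.H19.CM

theorem pf_NLNS (h : T_ITCS) : T_NLNS := by
  intro d L F F' hc N l b p x y D hl hD hsm hx hy
  have hL : (1 : ℝ) ≤ L := by
    have := hc.two
    linarith
  have hL0 : (0 : ℝ) ≤ L := by linarith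
  set r : ℝ := ‖p - b‖ + 2 * L ^ (4 * N) * D with hr
  have hxb : ‖x - b‖ ≤ r := by
    calc ‖x - b‖ = ‖(x - p) + (p - b)‖ := by rw [sub_add_sub_cancel]
      _ ≤ ‖x - p‖ + ‖p - b‖ := norm_add_le _ _
      _ ≤ r := by
        rw [hr]
        linarith
  have hyb : ‖y - b‖ ≤ r := by
    calc ‖y - b‖ = ‖(y - p) + (p - b)‖ := by rw [sub_add_sub_cancel]
      _ ≤ ‖y - p‖ + ‖p - b‖ := norm_add_le _ _
      _ ≤ r := by
        rw [hr]
        linarith
  have h1 := h d L F F' hc l b x y r hxb hyb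
  have hr0 : 0 ≤ r := (norm_nonneg _).trans hxb
  have h2 : L ^ (3 * l) ≤ L ^ (3 * N) := pow_le_pow_right₀ hL (by omega)
  have h3 : (1 : ℝ) ≤ L ^ (4 * N) := one_le_pow₀ hL
  have hpb : 0 ≤ ‖p - b‖ := norm_nonneg _
  have hxy : 0 ≤ ‖x - y‖ := norm_nonneg _
  have h4 : r ≤ 2 * L ^ (4 * N) * (‖p - b‖ + D) := by
    rw [hr]
    nlinarith
  have h5 : L ^ (3 * l) * r * ‖x - y‖ ≤
      L ^ (3 * N) * (2 * L ^ (4 * N) * (‖p - b‖ + D)) * ‖x - y‖ := by
    gcongr
  calc 50 * L ^ (6 * N) * ‖Cmp F l x - Cmp F l y - fderiv ℝ (Cmp F l) b (x - y)‖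
      ≤ 50 * L ^ (6 * N) * (L ^ (3 * N) * (2 * L ^ (4 * N) * (‖p - b‖ + D)) * ‖x - y‖) := by
        apply mul_le_mul_of_nonneg_left (h1.trans h5) (by positivity)
    _ = (100 * L ^ (13 * N) * (‖p - b‖ + D)) * ‖x - y‖ := by
        have e : L ^ (13 * N) = L ^ (6 * N) * L ^ (3 * N) * L ^ (4 * N) := by
          rw [← pow_add, ← pow_add]
          congr 1
          omega
        rw [e]
        ring
    _ ≤ 1 * ‖x - y‖ := mul_le_mul_of_nonneg_right hsm hxy
    _ = ‖x - y‖ := one_mul _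

end Pool.Agent.H19.CM
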